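import Pool.Agent.Helper28.ND.Spec3

/-! MP_0c2f33_an, part GP: one-variable facts. -/

namespace Pool.Agent.Helper12.ND
open Pool.Agent.Helper28.ND
open Set Filter Topology

lemma glue (p q p' q' : ℝ → ℝ) (a : ℝ) (hp : ∀ x, HasDerivAt p (p' x) x)
    (hq : ∀ x, HasDerivAt q (q' x) x) (h0 : p a = q a) (h1 : p' a = q' a) (x : ℝ) :
    HasDerivAt (fun y => if y ≤ a then p y else q y) (if x ≤ a then p' x else q' x) x := by
  rcases lt_trichotomy x a with h | h | h
  · rw [if_pos h.le]
    refine (hp x).congr_of_eventuallyEq ?_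
    filter_upwards [Iio_mem_nhds h] with y hy
    rw [if_pos (le_of_lt hy)]
  · subst h
    rw [if_pos le_rfl]
    have e1 : HasDerivWithinAt (fun y => if y ≤ x then p y else q y) (p' x) (Iic x) x := by
      refine (hp x).hasDerivWithinAt.congr (fun y hy => ?_) ?_
      · exact if_pos hy
      · exact if_pos le_rfl
    have e2 : HasDerivWithinAt (fun y => if y ≤ x then p y else q y) (p' x) (Ici x) x := by
      rw [h1]
      refine (hq x).hasDerivWithinAt.congr (fun y hy => ?_) ?_
      · rcases eq_or_lt_of_le (show x ≤ y from hy) with h | h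
        · subst h
          simp [h0]
        · exact if_neg (not_le.2 h)
      · simp [h0]
    have := e1.union e2
    rwa [Iic_union_Ici, hasDerivWithinAt_univ] at this
  · rw [if_neg (not_le.2 h)]
    refine (hq x).congr_of_eventuallyEq ?_
    filter_upwards [Ioi_mem_nhds h] with y hy
    rw [if_neg (not_le.2 hy)]

lemma c2 (f f' f'' : ℝ → ℝ) (h : ∀ x, HasDerivAt f (f' x) x) (h' : ∀ x, HasDerivAt f' (f'' x) x)
    (hc : Continuous f'') : ContDiff ℝ 2 f := by
  have e1 : deriv f = f' := funext fun x => (h x).deriv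
  have e2 : deriv f' = f'' := funext fun x => (h' x).deriv
  rw [show (2 : WithTop ℕ∞) = 1 + 1 by norm_num, contDiff_succ_iff_deriv]
  refine ⟨fun x => (h x).differentiableAt, by simp, ?_⟩
  rw [e1, contDiff_one_iff_deriv, e2]
  exact ⟨fun x => (h' x).differentiableAt, hc⟩

/-! ### Gp -/

noncomputable def g1 (y : ℝ) : ℝ := if y ≤ 1 then 2 - 6 * y ^ 2 + 4 * y ^ 3 else 0
noncomputable def g2 (y : ℝ) : ℝ := if y ≤ 1 then -12 * y + 12 * y ^ 2 else 0

lemma dG (x : ℝ) : HasDerivAt Gp (g1 x) x := by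
  refine glue (fun y => 2 * y - 2 * y ^ 3 + y ^ 4) (fun _ => 1) (fun y => 2 - 6 * y ^ 2 + 4 * y ^ 3)
    (fun _ => 0) 1 (fun x => ?_) (fun x => hasDerivAt_const _ _) (by norm_num) (by norm_num) x
  have := (((hasDerivAt_id x).const_mul 2).sub ((hasDerivAt_pow 3 x).const_mul 2)).add
    (hasDerivAt_pow 4 x)
  refine this.congr_deriv ?_
  simp
  ring

lemma dG' (x : ℝ) : HasDerivAt g1 (g2 x) x := by
  refine glue (fun y => 2 - 6 * y ^ 2 + 4 * y ^ 3) (fun _ => 0) (fun y => -12 * y + 12 * y ^ 2)
    (fun _ => 0) 1 (fun x => ?_) (fun x => hasDerivAt_const _ _) (by norm_num) (by norm_num) x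
  have := (((hasDerivAt_const x (2 : ℝ))).sub ((hasDerivAt_pow 2 x).const_mul 6)).add
    ((hasDerivAt_pow 3 x).const_mul 4)
  refine this.congr_deriv ?_
  simp
  ring

lemma cg2 : Continuous g2 := by
  unfold g2
  refine Continuous.if_le (by fun_prop) (by fun_prop) continuous_id continuous_const ?_
  intro x hx
  rw [hx]; norm_num

lemma derG : deriv Gp = g1 := funext fun x => (dG x).deriv
lemma derG' : deriv g1 = g2 := funext fun x => (dG' x).deriv

/-! ### Sg -/

noncomputable def s1 (y : ℝ) : ℝ :=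
  if y ≤ 0 then 0 else if y ≤ 1 then 30 * y ^ 2 - 60 * y ^ 3 + 30 * y ^ 4 else 0
noncomputable def s2 (y : ℝ) : ℝ :=
  if y ≤ 0 then 0 else if y ≤ 1 then 60 * y - 180 * y ^ 2 + 120 * y ^ 3 else 0

lemma dS (x : ℝ) : HasDerivAt Sg (s1 x) x := by
  refine glue (fun _ => 0) (fun y => if y ≤ 1 then 10 * y ^ 3 - 15 * y ^ 4 + 6 * y ^ 5 else 1)
    (fun _ => 0) (fun y => if y ≤ 1 then 30 * y ^ 2 - 60 * y ^ 3 + 30 * y ^ 4 else 0) 0
    (fun x => hasDerivAt_const _ _) (fun x => ?_) (by norm_num) (by norm_num) x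
  refine glue (fun y => 10 * y ^ 3 - 15 * y ^ 4 + 6 * y ^ 5) (fun _ => 1)
    (fun y => 30 * y ^ 2 - 60 * y ^ 3 + 30 * y ^ 4)
    (fun _ => 0) 1 (fun x => ?_) (fun x => hasDerivAt_const _ _) (by norm_num) (by norm_num) x
  have := (((hasDerivAt_pow 3 x).const_mul 10).sub ((hasDerivAt_pow 4 x).const_mul 15)).add
    ((hasDerivAt_pow 5 x).const_mul 6)
  refine this.congr_deriv ?_
  simp
  ring

lemma dS' (x : ℝ) : HasDerivAt s1 (s2 x) x := by
  refine glue (fun _ => 0) (fun y => if y ≤ 1 then 30 * y ^ 2 - 60 * y ^ 3 + 30 * y ^ 4 else 0)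
    (fun _ => 0) (fun y => if y ≤ 1 then 60 * y - 180 * y ^ 2 + 120 * y ^ 3 else 0) 0
    (fun x => hasDerivAt_const _ _) (fun x => ?_) (by norm_num) (by norm_num) x
  refine glue (fun y => 30 * y ^ 2 - 60 * y ^ 3 + 30 * y ^ 4) (fun _ => 0)
    (fun y => 60 * y - 180 * y ^ 2 + 120 * y ^ 3)
    (fun _ => 0) 1 (fun x => ?_) (fun x => hasDerivAt_const _ _) (by norm_num) (by norm_num) x
  have := (((hasDerivAt_pow 2 x).const_mul 30).sub ((hasDerivAt_pow 3 x).const_mul 60)).add
    ((hasDerivAt_pow 4 x).const_mul 30)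
  refine this.congr_deriv ?_
  simp
  ring

lemma cs2 : Continuous s2 := by
  unfold s2
  refine Continuous.if_le continuous_const ?_ continuous_id continuous_const ?_
  · refine Continuous.if_le (by fun_prop) (by fun_prop) continuous_id continuous_const ?_
    intro x hx
    rw [hx]; norm_num
  · intro x hx
    rw [hx]; norm_num

lemma derS : deriv Sg = s1 := funext fun x => (dS x).deriv
lemma derS' : deriv s1 = s2 := funext fun x => (dS' x).deriv

/-! ### jj -/

noncomputable def j1 (y : ℝ) : ℝ := if y ≤ 0 then 0 else 3 * y ^ 2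
noncomputable def j2 (y : ℝ) : ℝ := if y ≤ 0 then 0 else 6 * y

lemma jj_eq : jj = fun y => if y ≤ 0 then 0 else y ^ 3 := by
  funext y
  unfold jj
  split_ifs with h
  · rw [max_eq_right h]; norm_num
  · rw [max_eq_left (not_le.1 h).le]

lemma dJ (x : ℝ) : HasDerivAt jj (j1 x) x := by
  rw [jj_eq]
  refine glue (fun _ => 0) (fun y => y ^ 3) (fun _ => 0) (fun y => 3 * y ^ 2) 0
    (fun x => hasDerivAt_const _ _) (fun x => ?_) (by norm_num) (by norm_num) x
  refine (hasDerivAt_pow 3 x).congr_deriv ?_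
  simp

lemma dJ' (x : ℝ) : HasDerivAt j1 (j2 x) x := by
  refine glue (fun _ => 0) (fun y => 3 * y ^ 2) (fun _ => 0) (fun y => 6 * y) 0
    (fun x => hasDerivAt_const _ _) (fun x => ?_) (by norm_num) (by norm_num) x
  refine ((hasDerivAt_pow 2 x).const_mul 3).congr_deriv ?_
  simp
  ring

lemma cj2 : Continuous j2 := by
  unfold j2
  refine Continuous.if_le continuous_const (by fun_prop) continuous_id continuous_const ?_
  intro x hx
  rw [hx]; norm_num

lemma derJ : deriv jj = j1 := funext fun x => (dJ x).deriv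
lemma derJ' : deriv j1 = j2 := funext fun x => (dJ' x).deriv

lemma G_of_le {y : ℝ} (h : y ≤ 1) : Gp y = 2 * y - 2 * y ^ 3 + y ^ 4 := if_pos h
lemma G_of_ge {y : ℝ} (h : 1 ≤ y) : Gp y = 1 := by
  rcases eq_or_lt_of_le h with h | h
  · subst h
    rw [G_of_le le_rfl]; norm_num
  · exact if_neg (not_le.2 h)

lemma G_nonneg {y : ℝ} (h : 0 ≤ y) : 0 ≤ Gp y := by
  rcases le_total y 1 with h1 | h1
  · rw [G_of_le h1]
    have : 0 ≤ y * (2 - 2 * y ^ 2 + y ^ 3) := by
      apply mul_nonneg h
      have : y ^ 2 ≤ 1 := by nlinarith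
      have : 0 ≤ y ^ 3 := by positivity
      linarith
    nlinarith
  · rw [G_of_ge h1]; norm_num

lemma g1_nonneg {y : ℝ} (h : 0 ≤ y) : 0 ≤ g1 y := by
  unfold g1
  split_ifs with h1
  · have : 2 - 6 * y ^ 2 + 4 * y ^ 3 = 2 * (1 - y) ^ 2 * (1 + 2 * y) := by ring
    rw [this]; positivity
  · exact le_rfl

lemma G_mono {y z : ℝ} (hy : 0 ≤ y) (hz : y ≤ z) : Gp y ≤ Gp z := by
  have : MonotoneOn Gp (Ici 0) := by
    apply monotoneOn_of_deriv_nonneg (convex_Ici 0)
    · exact fun x _ => (dG x).continuousAt.continuousWithinAt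
    · exact fun x _ => (dG x).differentiableAt.differentiableWithinAt
    · intro x hx
      rw [interior_Ici] at hx
      rw [derG]
      exact g1_nonneg (le_of_lt hx)
  exact this hy (hy.trans hz) hz

lemma G_le_two {y : ℝ} (h : 0 ≤ y) : Gp y ≤ 2 * y := by
  rcases le_total y 1 with h1 | h1
  · rw [G_of_le h1]
    have : 0 ≤ y ^ 3 * (2 - y) := mul_nonneg (by positivity) (by linarith)
    nlinarith
  · rw [G_of_ge h1]; linarith

lemma G_scale {l y : ℝ} (hl : 1 ≤ l) (hy : 0 ≤ y) : Gp (l * y) ≤ l * Gp y := by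
  rcases le_total y 1 with h1 | h1
  · rcases le_total (l * y) 1 with h2 | h2
    · rw [G_of_le h1, G_of_le h2]
      -- l y (2 - 2 l² y² + l³ y³) ≤ l y (2 - 2 y² + y³)
      have hly : 0 ≤ l * y := by positivity
      have key : 2 - 2 * (l * y) ^ 2 + (l * y) ^ 3 ≤ 2 - 2 * y ^ 2 + y ^ 3 := by
        have hge : y ≤ l * y := by nlinarith
        set z := l * y with hz
        -- 2 (z² - y²) ≥ z³ - y³
        have : 0 ≤ (z - y) * (2 * (z + y) - (z ^ 2 + z * y + y ^ 2)) := by
          apply mul_nonneg (by linarith)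
          nlinarith [mul_nonneg hly hy, mul_nonneg hly (by linarith : (0 : ℝ) ≤ 1 - z),
            mul_nonneg hy (by linarith : (0 : ℝ) ≤ 1 - y), mul_nonneg hy (by linarith : (0 : ℝ) ≤ 1 - z)]
        nlinarith
      have := mul_le_mul_of_nonneg_left key hly
      nlinarith
    · rw [G_of_ge h2]
      have h3 : y ≤ Gp y := by
        rw [G_of_le h1]
        have : 0 ≤ y * ((1 - y) * (1 + y - y ^ 2)) :=
          mul_nonneg hy (mul_nonneg (by linarith) (by nlinarith))
        nlinarith
      nlinarith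
  · rw [G_of_ge h1, G_of_ge (by nlinarith)]
    linarith

lemma jj_mono {y z : ℝ} (h : y ≤ z) : jj y ≤ jj z := by
  unfold jj
  exact pow_le_pow_left₀ (le_max_right _ _) (max_le_max_right 0 h) 3

theorem t_GP : S_GP := by
  refine ⟨c2 _ _ _ dG dG' cg2, c2 _ _ _ dS dS' cs2, c2 _ _ _ dJ dJ' cj2, ?_, ?_, ?_⟩
  · refine ⟨by rw [G_of_le (by norm_num)]; norm_num, fun y => G_of_ge, ?_, ?_, fun y z => G_mono,
      fun l y => G_scale, ?_⟩
    · intro y hy
      refine ⟨G_nonneg hy, ?_, G_le_two hy⟩
      have := G_mono hy (le_max_left y 1)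
      rwa [G_of_ge (le_max_right y 1)] at this
    · intro y hy h1
      rw [G_of_le h1]
      have : 0 ≤ y * ((1 - y) * (1 + y - y ^ 2)) :=
        mul_nonneg hy (mul_nonneg (by linarith) (by nlinarith))
      nlinarith
    · intro y hy
      rw [derG, derG']
      refine ⟨g1_nonneg hy, ?_, ?_⟩
      · rcases le_or_gt y 1 with h1 | h1
        · rw [G_of_le h1]
          unfold g2
          rw [if_pos h1]
          have : 0 ≤ y * ((1 - y) * (1 + y) + y * (1 - y) + y ^ 3) := by
            apply mul_nonneg hy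
            have a1 : 0 ≤ (1 - y) * (1 + y) := mul_nonneg (by linarith) (by linarith)
            have a2 : 0 ≤ y * (1 - y) := mul_nonneg hy (by linarith)
            positivity
          nlinarith
        · rw [G_of_ge h1.le]
          unfold g2
          rw [if_neg (not_le.2 h1)]
          norm_num
      · unfold g1 g2
        split_ifs with h1
        · have : 0 ≤ y * ((1 - y) * (4 / 3 - (1 - y) * (1 + 2 * y))) := by
            apply mul_nonneg hy
            apply mul_nonneg (by linarith)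
            nlinarith [sq_nonneg (y - 1 / 4)]
          nlinarith
        · norm_num
  · have S0 : ∀ y, y ≤ 0 → Sg y = 0 := fun y h => if_pos h
    have S1 : ∀ y, 1 ≤ y → Sg y = 1 := by
      intro y h
      rcases eq_or_lt_of_le h with h | h
      · subst h
        unfold Sg
        norm_num
      · unfold Sg
        rw [if_neg (by linarith), if_neg (by linarith)]
    have n1 : ∀ y, 0 ≤ s1 y := by
      intro y
      unfold s1
      split_ifs with h1 h2
      · exact le_rfl
      · have : 30 * y ^ 2 - 60 * y ^ 3 + 30 * y ^ 4 = 30 * y ^ 2 * (1 - y) ^ 2 := by ring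
        rw [this]; positivity
      · exact le_rfl
    have mono : Monotone Sg := by
      apply monotone_of_deriv_nonneg (fun x => (dS x).differentiableAt)
      intro x
      rw [derS]; exact n1 x
    refine ⟨S0, S1, ?_, ?_⟩
    · intro y
      constructor
      · have := mono (min_le_left y 0)
        rwa [S0 _ (min_le_right y 0)] at this
      · have := mono (le_max_left y 1)
        rwa [S1 _ (le_max_right y 1)] at this
    · intro y
      rw [derS, derS']
      refine ⟨n1 y, ?_⟩
      unfold Sg s2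
      split_ifs with h1 h2
      · norm_num
      · push Not at h1
        -- 60 y (1-y)(1-2y) + 12 y³ (10 - 15 y + 6 y²) ≥ 0
        have : 0 ≤ 12 * y * (5 - 15 * y + 20 * y ^ 2 - 15 * y ^ 3 + 6 * y ^ 4) := by
          apply mul_nonneg (by linarith)
          nlinarith [sq_nonneg (y ^ 2 - 5 / 4 * y + 1 / 2), sq_nonneg (y - 1 / 2), sq_nonneg y,
            sq_nonneg (y ^ 2 - y), sq_nonneg (y - 1), sq_nonneg (y ^ 2 - 1)]
        nlinarith
      · norm_num
  · refine ⟨?_, ?_, fun y z => jj_mono, ?_⟩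
    · intro y hy
      rw [derJ, derJ', jj_eq]
      simp [j1, j2, hy]
    · intro y
      rw [derJ, derJ', jj_eq]
      unfold j1 j2
      simp only
      split_ifs with h
      · simp
      · push Not at h
        exact ⟨by positivity, by positivity, by positivity⟩
    · intro y hy
      have := jj_mono hy
      refine this.trans ?_
      unfold jj
      norm_num

end Pool.Agent.Helper12.ND
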